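import Mathlib
import Pool.Agent.Lib.MP_1ad17e_al_helper12.Defs

/-! T2 of MP_1ad17e_al: fixed points of affine maps of odd order on finite 2-groups. -/

namespace E1ad.h86

open Subgroup
open scoped commutatorElement

lemma iterate_affine {Q : Type*} [Group Q] (α : Q →* Q) (π : Q → Q)
    (hπ : ∀ x y, π (x * y) = π x * α y) (m : ℕ) :
    ∃ β : Q →* Q, ∀ x y, π^[m] (x * y) = π^[m] x * β y := by
  induction m with
  | zero => exact ⟨MonoidHom.id Q, fun x y => rfl⟩
  | succ m ih =>
    obtain ⟨β, hβ⟩ := ih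
    refine ⟨α.comp β, fun x y => ?_⟩
    rw [Function.iterate_succ_apply', Function.iterate_succ_apply', hβ, hπ]
    rfl

theorem fixedPoint {Q : Type*} [Group Q] [Finite Q] (hQ : IsPGroup 2 Q) (α : Q →* Q) (π : Q → Q)
    (hπ : ∀ x y, π (x * y) = π x * α y) (c : ℕ) (hc : Odd c) (hid : ∀ x, π^[c] x = x) :
    ∃ x, π x = x := by
  classical
  induction c using Nat.strong_induction_on generalizing α π with
  | _ c ih =>
    by_cases h1 : c = 1
    · subst h1
      exact ⟨1, hid 1⟩
    · have hp : c.minFac.Prime := Nat.minFac_prime h1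
      set p := c.minFac with hpdef
      obtain ⟨c', hc'⟩ : p ∣ c := Nat.minFac_dvd c
      have hcpos : 0 < c := hc.pos
      have hc'pos : 0 < c' := by
        rcases Nat.eq_zero_or_pos c' with h | h
        · subst h; simp at hc'; omega
        · exact h
      have hoddp : Odd p := by
        rw [hc'] at hc
        exact (Nat.odd_mul.1 hc).1
      have hoddc' : Odd c' := by
        rw [hc'] at hc
        exact (Nat.odd_mul.1 hc).2
      have hlt : c' < c := by
        rw [hc']
        have := hp.two_le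
        nlinarith
      obtain ⟨β, hβ⟩ := iterate_affine α π hπ p
      obtain ⟨x0, hx0⟩ := ih c' hlt β (π^[p]) hβ hoddc'
        (fun x => by rw [← Function.iterate_mul, ← hc']; exact hid x)
      -- fixed points of `π^[p]`
      let F : Set Q := {x | π^[p] x = x}
      let S : Subgroup Q :=
        { carrier := {y | β y = y}
          mul_mem' := by
            intro a b ha hb
            simp only [Set.mem_ofPred_eq] at ha hb ⊢
            rw [map_mul, ha, hb]
          one_mem' := by simp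
          inv_mem' := by
            intro a ha
            simp only [Set.mem_ofPred_eq] at ha ⊢
            rw [map_inv, ha] }
      have hcardS : ∃ k, Nat.card S = 2 ^ k := (IsPGroup.iff_card (p := 2)).1 (hQ.to_subgroup S)
      obtain ⟨k, hk⟩ := hcardS
      have e : F ≃ S :=
        { toFun := fun x => ⟨x0⁻¹ * x.1, by
            have h2 : π^[p] x.1 = x.1 := x.2
            have h3 := hβ x0 (x0⁻¹ * x.1)
            rw [mul_inv_cancel_left, h2, hx0] at h3
            show β (x0⁻¹ * x.1) = x0⁻¹ * x.1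
            have h4 : x0⁻¹ * x.1 = β (x0⁻¹ * x.1) :=
              inv_mul_eq_of_eq_mul h3
            exact h4.symm⟩
          invFun := fun y => ⟨x0 * y.1, by
            have h2 : β y.1 = y.1 := y.2
            show π^[p] (x0 * y.1) = x0 * y.1
            rw [hβ, hx0, h2]⟩
          left_inv := fun x => by ext; simp
          right_inv := fun y => by ext; simp }
      have hcardF : Nat.card F = 2 ^ k := by rw [Nat.card_congr e, hk]
      have hmaps : ∀ x ∈ F, π x ∈ F := by
        intro x hx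
        show π^[p] (π x) = π x
        rw [← Function.iterate_succ_apply, Function.iterate_succ_apply']
        exact congrArg _ hx
      let f : F → F := fun x => ⟨π x.1, hmaps x.1 x.2⟩
      have hf : ∀ m : ℕ, ∀ x : F, ((f^[m]) x).1 = π^[m] x.1 := by
        intro m
        induction m with
        | zero => intro x; rfl
        | succ m ihm =>
          intro x
          rw [Function.iterate_succ_apply, ihm, Function.iterate_succ_apply]
      have hfp : ∀ x : F, f^[p] x = x := fun x => by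
        ext
        rw [hf]
        exact x.2
      have : Finite F := inferInstance
      have : Fintype F := Fintype.ofFinite F
      have hp1 : p = (p - 1) + 1 := by have := hp.two_le; omega
      let σ : Equiv.Perm F :=
        { toFun := f
          invFun := f^[p - 1]
          left_inv := fun x => by
            rw [← Function.iterate_succ_apply, Nat.succ_eq_add_one, ← hp1]
            exact hfp x
          right_inv := fun x => by
            rw [← Function.iterate_succ_apply' f (p - 1) x, Nat.succ_eq_add_one, ← hp1]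
            exact hfp x }
      have hσm : ∀ m : ℕ, ∀ x : F, (σ ^ m) x = f^[m] x := by
        intro m
        induction m with
        | zero => intro x; rfl
        | succ m ihm =>
          intro x
          rw [pow_succ', Equiv.Perm.mul_apply, ihm, Function.iterate_succ_apply']
          rfl
      have hσp : σ ^ p ^ 1 = 1 := by
        ext x
        rw [pow_one, hσm, hfp]
        rfl
      have : Fact p.Prime := ⟨hp⟩
      have hnd : ¬ p ∣ Fintype.card F := by
        rw [← Nat.card_eq_fintype_card, hcardF]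
        intro h
        have := hp.dvd_of_dvd_pow h
        have h5 : p = 2 := (Nat.prime_dvd_prime_iff_eq hp Nat.prime_two).1 this
        rw [h5] at hoddp
        exact absurd hoddp (by decide)
      obtain ⟨a, ha⟩ := Equiv.Perm.exists_fixed_point_of_prime hnd hσp
      exact ⟨a.1, congrArg Subtype.val ha⟩

lemma conj_pow_mem {G : Type*} [Group G] (Q : Subgroup G) (k : G)
    (hkQ : ∀ q ∈ Q, k * q * k⁻¹ ∈ Q) (m : ℕ) : ∀ q ∈ Q, k ^ m * q * (k ^ m)⁻¹ ∈ Q := by
  induction m with
  | zero => intro q hq; simpa using hq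
  | succ m ih =>
    intro q hq
    have := hkQ _ (ih q hq)
    convert this using 1
    rw [pow_succ']
    group

lemma Phi_le {G : Type*} [Group G] (Q : Subgroup G) : Phi Q ≤ Q := by
  unfold Phi
  rw [closure_le]
  rintro z ⟨q, hq, rfl⟩
  exact pow_mem hq 2

lemma Phi_conj {G : Type*} [Group G] (Q : Subgroup G) (k : G)
    (hkQ : ∀ q ∈ Q, k * q * k⁻¹ ∈ Q) (x : G) (hx : x ∈ Phi Q) : k * x * k⁻¹ ∈ Phi Q := by
  refine closure_induction (p := fun x _ => k * x * k⁻¹ ∈ Phi Q) ?_ ?_ ?_ ?_ hx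
  · rintro z ⟨q, hq, rfl⟩
    refine subset_closure ⟨k * q * k⁻¹, hkQ q hq, ?_⟩
    rw [conj_pow]
  · simp
  · intro x y _ _ hx hy
    have := mul_mem hx hy
    convert this using 1
    group
  · intro x _ hx
    have := inv_mem hx
    convert this using 1
    group

/-- A proper subgroup of a finite 2-group together with the squares generates a proper
subgroup. -/
lemma eq_top_of_sup {Q : Type*} [Group Q] [Finite Q] (hQ : IsPGroup 2 Q) (C : Subgroup Q)
    (h : ∀ q : Q, ∃ a ∈ C, ∃ b ∈ closure {z : Q | ∃ q : Q, z = q ^ 2}, q = a * b) : C = ⊤ := by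
  rcases eq_top_or_exists_le_coatom C with h1 | ⟨M, hM, hCM⟩
  · exact h1
  · exfalso
    have : Fact (Nat.Prime 2) := ⟨Nat.prime_two⟩
    have : Group.IsNilpotent Q := hQ.isNilpotent
    have hMn : M.Normal := Subgroup.NormalizerCondition.normal_of_coatom M
      Group.normalizerCondition_of_isNilpotent hM
    have hsq : ∀ q : Q, q ^ 2 ∈ M := by
      intro q
      by_contra hq
      have htop : M ⊔ zpowers (q ^ 2) = ⊤ := by
        refine hM.2 _ ?_
        refine lt_of_le_of_ne le_sup_left ?_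
        intro h2
        apply hq
        rw [h2]
        exact (le_sup_right : zpowers (q ^ 2) ≤ M ⊔ zpowers (q ^ 2)) (mem_zpowers _)
      have hqtop : q ∈ M ⊔ zpowers (q ^ 2) := by rw [htop]; trivial
      rw [Subgroup.mem_sup_of_normal_left] at hqtop
      obtain ⟨m, hm, z, hz, hmz⟩ := hqtop
      obtain ⟨k, hk⟩ := mem_zpowers_iff.1 hz
      have h3 : q ^ (1 - 2 * k : ℤ) ∈ M := by
        have h4 : q ^ (1 - 2 * k : ℤ) = m := by
          have h9 : q ^ (2 * k : ℤ) = z := by
            rw [zpow_mul, ← hk, zpow_ofNat]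
          rw [zpow_sub, zpow_one, h9]
          exact mul_inv_eq_of_eq_mul hmz.symm
        rw [h4]; exact hm
      obtain ⟨e, he⟩ := hQ q
      have hcop : IsCoprime (1 - 2 * k : ℤ) ((2 : ℤ) ^ e) := by
        apply IsCoprime.pow_right
        exact ⟨1, k, by ring⟩
      obtain ⟨u, v, huv⟩ := hcop
      have h5 : q = (q ^ (1 - 2 * k : ℤ)) ^ u := by
        rw [← zpow_mul]
        have h6 : q ^ ((2 : ℤ) ^ e * v) = 1 := by
          rw [zpow_mul]
          have : q ^ ((2 : ℤ) ^ e) = 1 := by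
            have h7 : ((2 : ℤ) ^ e) = ((2 ^ e : ℕ) : ℤ) := by push_cast; rfl
            rw [h7, zpow_natCast, he]
          rw [this, one_zpow]
        calc q = q ^ (1 : ℤ) := (zpow_one q).symm
          _ = q ^ ((1 - 2 * k) * u + (2 : ℤ) ^ e * v) := by
              congr 1
              linarith
          _ = q ^ ((1 - 2 * k) * u) := by rw [zpow_add, h6, mul_one]
      have h8 : q ∈ M := by rw [h5]; exact zpow_mem h3 u
      exact hq (pow_mem h8 2)
    have : M = ⊤ := by
      rw [eq_top_iff]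
      intro q _
      obtain ⟨a, ha, b, hb, hab⟩ := h q
      rw [hab]
      refine mul_mem (hCM ha) ?_
      have : closure {z : Q | ∃ q : Q, z = q ^ 2} ≤ M := by
        rw [closure_le]
        rintro z ⟨q, rfl⟩
        exact hsq q
      exact this hb
    exact hM.1 this

theorem coprimeFrattini {G : Type*} [Group G] (Q : Subgroup G) [Finite Q] (hQ : IsPGroup 2 Q)
    (k : G) (c : ℕ) (hc : Odd c) (hkc : k ^ c = 1) (hkQ : ∀ q ∈ Q, k * q * k⁻¹ ∈ Q)
    (h : ∀ q ∈ Q, ⁅k, q⁆ ∈ Phi Q) : ∀ q ∈ Q, k * q = q * k := by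
  have hFfin : Finite (Phi Q) :=
    Finite.of_injective (Subgroup.inclusion (Phi_le Q)) (Subgroup.inclusion_injective (Phi_le Q))
  have hFp : IsPGroup 2 (Phi Q) := hQ.to_le (Phi_le Q)
  let α : Phi Q →* Phi Q :=
    { toFun := fun x => ⟨k * x.1 * k⁻¹, Phi_conj Q k hkQ x.1 x.2⟩
      map_one' := by ext; simp
      map_mul' := fun x y => by ext; simp }
  have hmain : ∀ q ∈ Q, ∃ x ∈ Phi Q, k * (q * x) = (q * x) * k := by
    intro q hq
    have hc1 : q⁻¹ * k * q * k⁻¹ ∈ Phi Q := by
      have h1 := inv_mem (h q⁻¹ (inv_mem hq))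
      convert h1 using 1
      simp only [commutatorElement_def]
      group
    let π : Phi Q → Phi Q := fun x => ⟨(q⁻¹ * k * q * k⁻¹) * (k * x.1 * k⁻¹),
      mul_mem hc1 (Phi_conj Q k hkQ x.1 x.2)⟩
    have hπm : ∀ m : ℕ, ∀ x : Phi Q, ((π^[m]) x).1 = q⁻¹ * k ^ m * q * x.1 * (k ^ m)⁻¹ := by
      intro m
      induction m with
      | zero => intro x; simp
      | succ m ih =>
        intro x
        rw [Function.iterate_succ_apply']
        show (q⁻¹ * k * q * k⁻¹) * (k * ((π^[m]) x).1 * k⁻¹) = _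
        rw [ih, pow_succ']
        group
    obtain ⟨x, hx⟩ := fixedPoint hFp α π
      (fun x y => by
        ext
        show (q⁻¹ * k * q * k⁻¹) * (k * (x.1 * y.1) * k⁻¹) =
          ((q⁻¹ * k * q * k⁻¹) * (k * x.1 * k⁻¹)) * (k * y.1 * k⁻¹)
        group) c hc
      (fun x => by
        ext
        rw [hπm, hkc]
        simp)
    refine ⟨x.1, x.2, ?_⟩
    have hx1 : (q⁻¹ * k * q * k⁻¹) * (k * x.1 * k⁻¹) = x.1 := congrArg Subtype.val hx
    have hx2 : k * (q * x.1) = q * ((q⁻¹ * k * q * k⁻¹) * (k * x.1 * k⁻¹)) * k := by group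
    rw [hx1] at hx2
    exact hx2
  let C : Subgroup Q :=
    { carrier := {q | k * q.1 = q.1 * k}
      mul_mem' := by
        intro a b ha hb
        simp only [Set.mem_ofPred_eq] at ha hb ⊢
        rw [Subgroup.coe_mul, ← mul_assoc, ha, mul_assoc, hb, mul_assoc]
      one_mem' := by simp
      inv_mem' := by
        intro a ha
        simp only [Set.mem_ofPred_eq] at ha ⊢
        rw [Subgroup.coe_inv]
        have := congrArg (fun z => (a : G)⁻¹ * z * (a : G)⁻¹) ha
        simp only [mul_assoc, inv_mul_cancel_left, mul_inv_cancel,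
          mul_one] at this
        exact this.symm }
  have hC : C = ⊤ := by
    apply eq_top_of_sup hQ
    intro q
    obtain ⟨x, hx, hxk⟩ := hmain q.1 q.2
    have hxQ : x ∈ Q := Phi_le Q hx
    refine ⟨q * ⟨x, hxQ⟩, hxk, ⟨x, hxQ⟩⁻¹, ?_, by simp⟩
    apply inv_mem
    have h2 : ∀ y ∈ Phi Q, ∀ hy : y ∈ Q,
        (⟨y, hy⟩ : Q) ∈ closure {z : Q | ∃ q : Q, z = q ^ 2} := by
      intro y hy
      refine closure_induction (p := fun y _ => ∀ hy : y ∈ Q,
        (⟨y, hy⟩ : Q) ∈ closure {z : Q | ∃ q : Q, z = q ^ 2}) ?_ ?_ ?_ ?_ hy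
      · rintro z ⟨r, hr, rfl⟩ hz
        exact subset_closure ⟨⟨r, hr⟩, by ext; simp⟩
      · intro h1
        exact one_mem _
      · intro a b ha hb iha ihb hab
        have ha' : a ∈ Q := Phi_le Q ha
        have hb' : b ∈ Q := Phi_le Q hb
        exact mul_mem (iha ha') (ihb hb')
      · intro a ha iha hia
        have ha' : a ∈ Q := Phi_le Q ha
        exact inv_mem (iha ha')
    exact h2 x hx hxQ
  intro q hq
  have : (⟨q, hq⟩ : Q) ∈ C := by rw [hC]; trivial
  exact this

theorem invert {G : Type*} [Group G] (Q : Subgroup G) [Finite Q] (hQ : IsPGroup 2 Q)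
    (t ρ : G) (c : ℕ) (hc : Odd c) (hρc : ρ ^ c = 1) (hρQ : ∀ q ∈ Q, ρ * q * ρ⁻¹ ∈ Q)
    (h : t * ρ * t⁻¹ * ρ ∈ Q) : ∃ x ∈ Q, (x⁻¹ * t) * ρ * (x⁻¹ * t)⁻¹ = ρ⁻¹ := by
  have hinv : ρ⁻¹ = ρ ^ (c - 1) := by
    have hcpos := hc.pos
    have h1 : ρ ^ (c - 1) * ρ = 1 := by
      rw [← pow_succ, Nat.sub_add_cancel hcpos, hρc]
    exact inv_eq_of_mul_eq_one_left h1
  have hρQ' : ∀ q ∈ Q, ρ⁻¹ * q * ρ ∈ Q := by
    intro q hq
    have h1 := conj_pow_mem Q ρ hρQ (c - 1) q hq
    rw [← hinv, inv_inv] at h1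
    exact h1
  let α : Q →* Q :=
    { toFun := fun x => ⟨ρ⁻¹ * x.1 * ρ, hρQ' x.1 x.2⟩
      map_one' := by ext; simp
      map_mul' := fun x y => by ext; simp [mul_assoc] }
  let π : Q → Q := fun x => ⟨(t * ρ * t⁻¹ * ρ) * (ρ⁻¹ * x.1 * ρ), mul_mem h (hρQ' x.1 x.2)⟩
  have hπm : ∀ m : ℕ, ∀ x : Q, ((π^[m]) x).1 = t * ρ ^ m * t⁻¹ * x.1 * ρ ^ m := by
    intro m
    induction m with
    | zero => intro x; simp
    | succ m ih =>
      intro x
      rw [Function.iterate_succ_apply']
      show (t * ρ * t⁻¹ * ρ) * (ρ⁻¹ * ((π^[m]) x).1 * ρ) = _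
      rw [ih]
      have : ρ ^ (m + 1) = ρ * ρ ^ m := pow_succ' ρ m
      have h2 : ρ ^ (m + 1) = ρ ^ m * ρ := pow_succ ρ m
      calc (t * ρ * t⁻¹ * ρ) * (ρ⁻¹ * (t * ρ ^ m * t⁻¹ * x.1 * ρ ^ m) * ρ)
          = t * (ρ * ρ ^ m) * t⁻¹ * x.1 * (ρ ^ m * ρ) := by group
        _ = t * ρ ^ (m + 1) * t⁻¹ * x.1 * ρ ^ (m + 1) := by rw [← this, ← h2]
  obtain ⟨x, hx⟩ := fixedPoint hQ α π
    (fun x y => by
      ext
      show (t * ρ * t⁻¹ * ρ) * (ρ⁻¹ * (x.1 * y.1) * ρ) =
        ((t * ρ * t⁻¹ * ρ) * (ρ⁻¹ * x.1 * ρ)) * (ρ⁻¹ * y.1 * ρ)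
      group) c hc
    (fun x => by
      ext
      rw [hπm, hρc]
      simp)
  refine ⟨x.1, x.2, ?_⟩
  have hx1 : (t * ρ * t⁻¹ * ρ) * (ρ⁻¹ * x.1 * ρ) = x.1 := congrArg Subtype.val hx
  have hx2 : (x.1⁻¹ * t) * ρ * (x.1⁻¹ * t)⁻¹ =
      x.1⁻¹ * ((t * ρ * t⁻¹ * ρ) * (ρ⁻¹ * x.1 * ρ)) * ρ⁻¹ := by group
  rw [hx2, hx1]
  simp

end E1ad.h86
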