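import Mathlib
import Pool.Agent.Lib.MP_1ad17e_al_helper12.Defs

/-! T1 of MP_1ad17e_al: in a nilpotent group of class `n`, a subgroup `Q` which contains every
element acting trivially on `Q / Phi Q` contains all `2^(n-1)`-th powers. -/

namespace E1ad.h86

open Subgroup
open scoped commutatorElement

variable {H : Type*} [Group H]

/-- `H(i,j)`, generated by `y^(2^l)`, `y` in the `b`-th centre, `b ≤ i`, `j + b ≤ l + i`. -/
def HH (H : Type*) [Group H] (i j : ℕ) : Subgroup H :=
  closure {z | ∃ b l : ℕ, ∃ y ∈ Subgroup.upperCentralSeries H b, b ≤ i ∧ j + b ≤ l + i ∧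
    z = y ^ (2 ^ l)}

lemma HH_conj (i j : ℕ) (g h : H) (hh : h ∈ HH H i j) : g * h * g⁻¹ ∈ HH H i j := by
  refine closure_induction (p := fun h _ => g * h * g⁻¹ ∈ HH H i j) ?_ ?_ ?_ ?_ hh
  · rintro z ⟨b, l, y, hy, hb, hl, rfl⟩
    refine subset_closure ⟨b, l, g * y * g⁻¹, ?_, hb, hl, ?_⟩
    · exact (inferInstance : (Subgroup.upperCentralSeries H b).Normal).conj_mem y hy g
    · rw [conj_pow]
  · simp
  · intro x y _ _ hx hy
    have := mul_mem hx hy
    convert this using 1
    group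
  · intro x _ hx
    have := inv_mem hx
    convert this using 1
    group

instance HH_normal (i j : ℕ) : (HH H i j).Normal :=
  ⟨fun h hh g => HH_conj i j g h hh⟩

lemma HH_le {i j i' j' : ℕ} (hi : i ≤ i') (hj : j' + i ≤ j + i') : HH H i j ≤ HH H i' j' := by
  unfold HH
  rw [closure_le]
  rintro z ⟨b, l, y, hy, hb, hl, rfl⟩
  exact subset_closure ⟨b, l, y, hy, by omega, by omega, rfl⟩

/-- The commutator fact (F). -/
lemma factF (i j : ℕ)
    (ih : ∀ i' < i, ∀ j : ℕ, ∀ x ∈ Subgroup.upperCentralSeries H (i' + 1), ∀ u : H,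
      ⁅x ^ (2 ^ j), u⁆ ∈ HH H i' j) (h : H) (hh : h ∈ HH H i j) :
    ∀ u : H, ⁅h, u⁆ ∈ HH H i (j + 1) := by
  refine closure_induction (p := fun h _ => ∀ u : H, ⁅h, u⁆ ∈ HH H i (j + 1)) ?_ ?_ ?_ ?_ hh
  · rintro z ⟨b, l, y, hy, hb, hl, rfl⟩ u
    rcases b with _ | b
    · rw [Subgroup.upperCentralSeries_zero, Subgroup.mem_bot] at hy
      subst hy
      simp
    · exact HH_le (by omega) (by omega) (ih b (by omega) l y hy u)
  · intro u; simp
  · intro x y _ _ hx hy u
    have h1 := mul_mem (HH_conj i (j + 1) x _ (hy u)) (hx u)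
    convert h1 using 1
    simp only [commutatorElement_def]
    group
  · intro x _ hx u
    have h1 := HH_conj i (j + 1) x⁻¹ _ (inv_mem (hx u))
    convert h1 using 1
    simp only [commutatorElement_def]
    group

/-- The squaring fact (S). -/
lemma factS (i j : ℕ)
    (hF : ∀ h ∈ HH H i j, ∀ u : H, ⁅h, u⁆ ∈ HH H i (j + 1)) (h : H) (hh : h ∈ HH H i j) :
    h ^ 2 ∈ HH H i (j + 1) := by
  refine closure_induction (p := fun h _ => h ^ 2 ∈ HH H i (j + 1)) ?_ ?_ ?_ ?_ hh
  · rintro z ⟨b, l, y, hy, hb, hl, rfl⟩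
    refine subset_closure ⟨b, l + 1, y, hy, hb, by omega, ?_⟩
    rw [← pow_mul, ← pow_succ]
  · simp
  · intro x y hx hy h1 h2
    have h3 := mul_mem (mul_mem h1 (hF x⁻¹ (inv_mem hx) y)) h2
    convert h3 using 1
    simp only [commutatorElement_def, pow_two]
    group
  · intro x _ h1
    rw [inv_pow]
    exact inv_mem h1

lemma claimC (i : ℕ) : ∀ j : ℕ, ∀ x ∈ Subgroup.upperCentralSeries H (i + 1), ∀ u : H,
    ⁅x ^ (2 ^ j), u⁆ ∈ HH H i j := by
  induction i using Nat.strong_induction_on with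
  | _ i ih =>
    intro j
    induction j with
    | zero =>
      intro x hx u
      rw [Subgroup.mem_upperCentralSeries_succ_iff] at hx
      refine subset_closure ⟨i, 0, ⁅x, u⁆, ?_, le_rfl, le_rfl, by simp⟩
      exact hx u
    | succ j ihj =>
      intro x hx u
      have hF := factF i j ih
      have hh := ihj x hx u
      have h1 : ⁅x ^ (2 ^ (j + 1)), u⁆ =
          ⁅⁅x ^ (2 ^ j), u⁆, x ^ (2 ^ j)⁆⁻¹ * ⁅x ^ (2 ^ j), u⁆ ^ 2 := by
        rw [pow_succ 2 j, pow_mul]
        generalize x ^ (2 ^ j) = a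
        simp only [commutatorElement_def, pow_two, mul_inv_rev, inv_inv, mul_assoc,
          inv_mul_cancel_left, mul_inv_cancel_left]
      rw [h1]
      exact mul_mem (inv_mem (hF _ hh _)) (factS i j hF _ hh)

theorem lemmaU {H : Type*} [Group H] (n : ℕ) (hn : 1 ≤ n)
    (hH : Subgroup.upperCentralSeries H n = ⊤) (Q : Subgroup H)
    (hQ : ∀ y : H, (∀ q ∈ Q, ⁅y, q⁆ ∈ Phi Q) → y ∈ Q) (x : H) :
    x ^ (2 ^ (n - 1)) ∈ Q := by
  have key : ∀ i : ℕ, ∀ x ∈ Subgroup.upperCentralSeries H (i + 1), x ^ (2 ^ i) ∈ Q := by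
    intro i
    induction i using Nat.strong_induction_on with
    | _ i ih =>
      intro x hx
      refine hQ _ fun q _ => ?_
      have h1 := claimC i i x hx q
      have h2 : HH H i i ≤ Phi Q := by
        unfold HH
        rw [closure_le]
        rintro z ⟨b, l, y, hy, hb, hl, rfl⟩
        rcases b with _ | b
        · rw [Subgroup.upperCentralSeries_zero, Subgroup.mem_bot] at hy
          subst hy
          simp
        · have h3 := ih b (by omega) y hy
          have h4 : (y ^ (2 ^ b)) ^ 2 ∈ Phi Q := subset_closure ⟨_, h3, rfl⟩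
          have h5 : y ^ (2 ^ l) = ((y ^ (2 ^ b)) ^ 2) ^ (2 ^ (l - (b + 1))) := by
            rw [← pow_mul, ← pow_mul]
            congr 1
            rw [← pow_succ', ← pow_add]
            congr 1
            omega
          rw [h5]
          exact pow_mem h4 _
      exact h2 h1
  obtain ⟨m, rfl⟩ : ∃ m, n = m + 1 := ⟨n - 1, by omega⟩
  exact key m x (by rw [hH]; trivial)

end E1ad.h86
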